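import Pool.Agent.Helper93.TCU.Stmts
import Pool.Agent.Helper93.TCU.Bas
import Pool.Agent.Helper3.TCS.Stmts

/-!
ITER2: iteration of the step with tests until the final transversal exists.
-/

set_option autoImplicit false
set_option linter.unusedSectionVars false

namespace Pool.TCU

open Pool.TC Pool.TCM Pool.TCS Finset
open scoped Classical

section iter

variable {V κ : Type} [Fintype V] [Fintype κ] {S : CS V κ}

/-- value of the bound -/
private noncomputable def I2Y (K : ℕ) (Lam mT t : ℝ) : ℝ :=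
  t + 12 * K * Real.sqrt ((mT * t + Lam * mT ^ 2) * Lam)

private theorem I2Y_mono {K : ℕ} {Lam mT t t' : ℝ} (hLam : 0 ≤ Lam) (hm : 0 ≤ mT) (h : t ≤ t') :
    I2Y K Lam mT t ≤ I2Y K Lam mT t' := by
  unfold I2Y
  have h1 : Real.sqrt ((mT * t + Lam * mT ^ 2) * Lam) ≤
      Real.sqrt ((mT * t' + Lam * mT ^ 2) * Lam) := by
    apply Real.sqrt_le_sqrt
    gcongr
  have hK : (0 : ℝ) ≤ 12 * K := by positivity
  have := mul_le_mul_of_nonneg_left h1 hK
  linarith

private theorem I2Y_nonneg {K : ℕ} {Lam mT t : ℝ} (ht : 0 ≤ t) : 0 ≤ I2Y K Lam mT t := by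
  unfold I2Y
  positivity

private theorem I2_Ht (n K : ℕ) (Lam l L0 nT sT mT : ℝ) : Ht n K Lam l L0 nT sT mT =
    (n + 200 * K) * I2Y K Lam mT (nT / l + n * (64 * (K : ℝ) ^ 2 * Real.sqrt (sT * Lam)) / L0) :=
  rfl

/-- the last transversal -/
private theorem I2_fin {n K : ℕ} {Lam mT t τ : ℝ} (hK : 24 ≤ K) (hLam : 0 ≤ Lam) (hm : 0 ≤ mT)
    (h0 : 0 ≤ τ) (h : τ ≤ t) :
    (100 * K : ℕ) * τ + 3 * Real.sqrt (((100 * K : ℕ) * (mT * τ) + Lam * mT ^ 2) * Lam) ≤
      (n + 200 * K) * I2Y K Lam mT t := by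
  have hK' : (24 : ℝ) ≤ K := by exact_mod_cast hK
  have hn : (0 : ℝ) ≤ n := Nat.cast_nonneg n
  push_cast
  have ht : 0 ≤ t := h0.trans h
  obtain ⟨r, hr⟩ : ∃ r : ℝ, r = Real.sqrt ((mT * t + Lam * mT ^ 2) * Lam) := ⟨_, rfl⟩
  have hr0 : 0 ≤ r := by rw [hr]; exact Real.sqrt_nonneg _
  have h1 : Real.sqrt ((100 * (K : ℝ) * (mT * τ) + Lam * mT ^ 2) * Lam) ≤ 100 * K * r := by
    have e0 : 100 * (K : ℝ) * r =
        Real.sqrt ((100 * (K : ℝ)) ^ 2 * ((mT * t + Lam * mT ^ 2) * Lam)) := by
      rw [Real.sqrt_mul (by positivity), Real.sqrt_sq (by positivity), hr]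
    rw [e0]
    apply Real.sqrt_le_sqrt
    have h2 : (100 * (K : ℝ) * (mT * τ) + Lam * mT ^ 2) ≤
        (100 * K) ^ 2 * (mT * t + Lam * mT ^ 2) := by
      have h3 : mT * τ ≤ mT * t := mul_le_mul_of_nonneg_left h hm
      have h4 : 0 ≤ mT * τ := mul_nonneg hm h0
      have h5 : 0 ≤ Lam * mT ^ 2 := by positivity
      have h6 : (1 : ℝ) ≤ 100 * K := by linarith
      have h7 : 100 * (K : ℝ) ≤ (100 * K) ^ 2 := by nlinarith
      have h8 : (1 : ℝ) ≤ (100 * (K : ℝ)) ^ 2 := by nlinarith
      have h9 : 100 * (K : ℝ) * (mT * τ) ≤ (100 * K) ^ 2 * (mT * t) :=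
        mul_le_mul h7 h3 h4 (by positivity)
      have h10 : 1 * (Lam * mT ^ 2) ≤ (100 * (K : ℝ)) ^ 2 * (Lam * mT ^ 2) :=
        mul_le_mul_of_nonneg_right h8 h5
      linarith
    calc (100 * (K : ℝ) * (mT * τ) + Lam * mT ^ 2) * Lam
        ≤ ((100 * K) ^ 2 * (mT * t + Lam * mT ^ 2)) * Lam := mul_le_mul_of_nonneg_right h2 hLam
      _ = (100 * (K : ℝ)) ^ 2 * ((mT * t + Lam * mT ^ 2) * Lam) := by ring
  have hY : I2Y K Lam mT t = t + 12 * K * r := by rw [hr]; rfl
  rw [hY]
  have h3 : 0 ≤ (n : ℝ) * (t + 12 * K * r) := by positivity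
  have h4 : 100 * (K : ℝ) * τ ≤ 200 * K * t := by
    have : 100 * (K : ℝ) * τ ≤ 100 * K * t := mul_le_mul_of_nonneg_left h (by positivity)
    have : 0 ≤ (K : ℝ) * t := by positivity
    linarith
  have h5 : 3 * (100 * K * r) ≤ 200 * K * (12 * K * r) := by
    have : 0 ≤ (K : ℝ) * r := by positivity
    nlinarith
  have e : (n + 200 * (K : ℝ)) * (t + 12 * K * r) =
      n * (t + 12 * K * r) + 200 * K * t + 200 * K * (12 * K * r) := by ring
  rw [e]
  linarith

/-- the numerical inequality -/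
private theorem I2_num {b g E g' B : ℝ} (hb0 : 0 < b) (hb1 : b ≤ 1 / 192) (hg0 : 0 < g)
    (hg1 : g ≤ 15 / 16) (hE0 : 0 ≤ E) (hE : 8 * E ≤ g * b / 32) (hg' : g' ≤ g * (1 + b / 32))
    (hB : B = (1 - b * (1 - g)) * (1 - b * (1 - g)) - E) :
    1 - 3 * b ≤ B ∧ (1 - g) * (1 - b) * (1 - b * (1 - g)) + E ≤ (1 - g') * B ∧
      (1 - b) * (1 - b * (1 - g)) + E ≤ B := by
  have hgb : 0 < g * b := mul_pos hg0 hb0
  have hq0 : 0 ≤ b * (1 - g) := mul_nonneg hb0.le (by linarith)
  have hq1 : b * (1 - g) ≤ b := by nlinarith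
  have hgb' : g * b ≤ b := by nlinarith
  have hB1 : 1 - 3 * b ≤ B := by
    rw [hB]
    nlinarith [mul_nonneg hq0 hq0]
  have hB0 : 0 ≤ B := by linarith
  set t : ℝ := 1 - b * (1 - g) with ht
  have ht1 : t ≤ 1 := by rw [ht]; linarith
  have ht0 : 191 / 192 ≤ t := by rw [ht]; linarith
  refine ⟨hB1, ?_, ?_⟩
  · have h1 : (1 - g - g * b / 32) * B ≤ (1 - g') * B :=
      mul_le_mul_of_nonneg_right (by nlinarith) hB0
    refine le_trans ?_ h1
    have e1 : (1 - g - g * b / 32) * B - ((1 - g) * (1 - b) * t + E) =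
        g * b * ((1 - g) * t) - g * b / 32 * (t * t) - E * (1 + (1 - g) - g * b / 32) := by
      rw [hB, ht]
      ring
    have h2 : 1 / 16 * t ≤ (1 - g) * t := mul_le_mul_of_nonneg_right (by linarith) (by linarith)
    have h3 : g * b * (1 / 16 * t) ≤ g * b * ((1 - g) * t) := mul_le_mul_of_nonneg_left h2 hgb.le
    have h4 : t * t ≤ t := by nlinarith
    have h5 : g * b / 32 * (t * t) ≤ g * b / 32 * t := mul_le_mul_of_nonneg_left h4 (by positivity)
    have h6 : E * (1 + (1 - g) - g * b / 32) ≤ E * 2 := mul_le_mul_of_nonneg_left (by linarith) hE0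
    have h7 : g * b / 32 * (191 / 192) ≤ g * b / 32 * t :=
      mul_le_mul_of_nonneg_left ht0 (by positivity)
    linarith
  · have e1 : B - ((1 - b) * t + E) = g * b * t - 2 * E := by
      rw [hB, ht]
      ring
    have h7 : g * b * (191 / 192) ≤ g * b * t := mul_le_mul_of_nonneg_left ht0 hgb.le
    linarith

private theorem I2_bet {K : ℕ} (hK : 24 ≤ K) : 0 < bet (8 * K) K ∧ bet (8 * K) K ≤ 1 / 192 := by
  have hm : 192 ≤ 8 * K := by omega
  have hm' : (192 : ℝ) ≤ ((8 * K : ℕ) : ℝ) := by exact_mod_cast hm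
  have hm0 : (0 : ℝ) < ((8 * K : ℕ) : ℝ) := by linarith
  have h1 : 1 / ((8 * K : ℕ) : ℝ) ≤ 1 / 192 := one_div_le_one_div_of_le (by norm_num) hm'
  have h2 : 0 < 1 / ((8 * K : ℕ) : ℝ) := one_div_pos.2 hm0
  have h3 : 0 < 1 - 1 / ((8 * K : ℕ) : ℝ) := by linarith
  unfold bet
  refine ⟨by positivity, ?_⟩
  exact (mul_le_of_le_one_right h2.le (pow_le_one₀ h3.le (by linarith))).trans h1

private theorem I2_Er {K : ℕ} {Lam a b : ℝ} (hL : 0 < Lam) (ha : 0 < a) (hab : a ≤ b) :
    Er K Lam b ≤ Er K Lam a := by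
  unfold Er
  have h1 : Real.sqrt (Lam / b) ≤ Real.sqrt (Lam / a) :=
    Real.sqrt_le_sqrt (div_le_div_of_nonneg_left hL.le ha hab)
  have h2 : 128 * (K : ℝ) ^ 2 * Real.sqrt (Lam / b) ≤ 128 * (K : ℝ) ^ 2 * Real.sqrt (Lam / a) :=
    mul_le_mul_of_nonneg_left h1 (by positivity)
  linarith

private theorem I2_Er0 {K : ℕ} {Lam a : ℝ} : 0 ≤ Er K Lam a := by
  unfold Er
  have := Real.sqrt_nonneg (Lam / a)
  positivity

/-- `E l` is large -/
private theorem I2_El {K : ℕ} {Lam l : ℝ} (hl : 1 ≤ l) :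
    128 * (K : ℝ) ^ 2 * Real.sqrt (l * Lam) ≤ Er K Lam l * l := by
  have hl0 : 0 < l := by linarith
  have h1 : Real.sqrt (Lam / l) * l = Real.sqrt (l * Lam) := by
    have h2 : Real.sqrt (l ^ 2) = l := Real.sqrt_sq hl0.le
    calc Real.sqrt (Lam / l) * l = Real.sqrt (l ^ 2) * Real.sqrt (Lam / l) := by
          rw [h2, mul_comm]
      _ = Real.sqrt (l ^ 2 * (Lam / l)) := (Real.sqrt_mul (by positivity) _).symm
      _ = Real.sqrt (l * Lam) := by
          congr 1
          field_simp
  unfold Er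
  have h3 : 0 ≤ 2 ^ 18 * (1 / 2 : ℝ) ^ K * l := by positivity
  calc 128 * (K : ℝ) ^ 2 * Real.sqrt (l * Lam) = 128 * (K : ℝ) ^ 2 * Real.sqrt (Lam / l) * l := by
        rw [← h1]
        ring
    _ ≤ (2 ^ 18 * (1 / 2) ^ K + 128 * (K : ℝ) ^ 2 * Real.sqrt (Lam / l)) * l := by
        rw [add_mul]
        linarith

/-- `4 / l ≤ E` -/
private theorem I2_E4 {K : ℕ} {Lam l : ℝ} (hK : 24 ≤ K) (hl : 1 ≤ l) (hLam : 1 ≤ Lam) :
    4 / l ≤ Er K Lam l := by
  have hl0 : 0 < l := by linarith
  rw [div_le_iff₀ hl0]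
  refine le_trans ?_ (I2_El (K := K) (Lam := Lam) hl)
  have hK' : (24 : ℝ) ≤ K := by exact_mod_cast hK
  have h1 : 1 ≤ Real.sqrt (l * Lam) := by
    rw [Real.one_le_sqrt]
    nlinarith
  have h2 : (576 : ℝ) ≤ (K : ℝ) ^ 2 := by nlinarith
  nlinarith

/-! ### The tests for the neighbours -/

/-- the indicator of the neighbours of `u` which have the colour `a` in their list -/
private noncomputable def I2T (S : CS V κ) (U : Finset V) (L : V → Finset κ) (p : V × κ) (w : V)
    (b : κ) : ℝ := if b = p.2 ∧ w ∈ Pn S U L p.1 p.2 then 1 else 0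

private theorem I2T_nn (U : Finset V) (L : V → Finset κ) (p : V × κ) (w : V) (b : κ) :
    0 ≤ I2T S U L p w b := by
  unfold I2T
  split_ifs <;> norm_num

private theorem I2T_le (U : Finset V) (L : V → Finset κ) (p : V × κ) (w : V) (b : κ) :
    I2T S U L p w b ≤ 1 := by
  unfold I2T
  split_ifs <;> norm_num

private theorem I2T_rs (U : Finset V) (L : V → Finset κ) (p : V × κ) (w : V) :
    rs L (I2T S U L p) w = if w ∈ Pn S U L p.1 p.2 then 1 else 0 := by
  unfold rs I2T
  by_cases h : w ∈ Pn S U L p.1 p.2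
  · have h1 : p.2 ∈ L w := by
      unfold Pn at h
      exact (mem_filter.1 h).2.2.2
    simp only [h, and_true, if_true]
    rw [Finset.sum_ite_eq' (L w) p.2 (fun _ => (1 : ℝ)), if_pos h1]
  · simp only [h, and_false, if_false]
    exact Finset.sum_const_zero

private theorem I2T_nm (U : Finset V) (L : V → Finset κ) (p : V × κ) :
    nm U L (I2T S U L p) = (Pn S U L p.1 p.2).card := by
  have h1 : nm U L (I2T S U L p) = ∑ w ∈ U, rs L (I2T S U L p) w := rfl
  rw [h1]
  simp only [I2T_rs]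
  rw [Finset.sum_ite_mem, Finset.sum_const, nsmul_eq_mul, mul_one]
  congr 2
  apply Finset.inter_eq_right.2
  intro w hw
  unfold Pn at hw
  exact (mem_filter.1 hw).2.1

private theorem I2T_sq (U : Finset V) (L : V → Finset κ) (p : V × κ) :
    sq S U L (I2T S U L p) ≤ 2 * (Pn S U L p.1 p.2).card := by
  unfold sq
  have h1 : ∑ w ∈ U, rs L (I2T S U L p) w ^ 2 ≤ (Pn S U L p.1 p.2).card := by
    rw [← I2T_nm]
    show _ ≤ ∑ w ∈ U, rs L (I2T S U L p) w
    refine Finset.sum_le_sum fun w _ => ?_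
    rw [I2T_rs]
    split_ifs <;> norm_num
  have h2 : ∑ v, cs S U L (I2T S U L p) v ^ 2 ≤ (Pn S U L p.1 p.2).card := by
    have h3 : ∀ v, cs S U L (I2T S U L p) v ^ 2 ≤
        if v ∈ (Pn S U L p.1 p.2).image (fun w => S.r w p.2) then 1 else 0 := by
      intro v
      have h4 : cs S U L (I2T S U L p) v =
          (((Cv S U L v).filter (fun p' => p'.2 = p.2 ∧ p'.1 ∈ Pn S U L p.1 p.2)).card : ℝ) := by
        unfold cs I2T
        rw [← Finset.sum_filter, Finset.sum_const, nsmul_eq_mul, mul_one]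
      split_ifs with hv
      · have h5 : ((Cv S U L v).filter (fun p' => p'.2 = p.2 ∧
            p'.1 ∈ Pn S U L p.1 p.2)).card ≤ 1 := by
          rw [Finset.card_le_one]
          rintro ⟨x1, x2⟩ hx ⟨y1, y2⟩ hy
          rw [mem_filter] at hx hy
          obtain ⟨hx1, hx2, -⟩ := hx
          obtain ⟨hy1, hy2, -⟩ := hy
          unfold Cv at hx1 hy1
          rw [mem_filter] at hx1 hy1
          dsimp only at hx1 hx2 hy1 hy2
          subst hx2
          have h6 : x1 = y1 := S.inj _ _ p.2 (by rw [hx1.2.2.2, ← hy1.2.2.2, hy2])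
          rw [h6, hy2]
        rw [h4]
        have h6 : (((Cv S U L v).filter (fun p' => p'.2 = p.2 ∧
            p'.1 ∈ Pn S U L p.1 p.2)).card : ℝ) ≤ 1 := by exact_mod_cast h5
        have h7 : (0 : ℝ) ≤ (((Cv S U L v).filter (fun p' => p'.2 = p.2 ∧
            p'.1 ∈ Pn S U L p.1 p.2)).card : ℝ) := Nat.cast_nonneg _
        nlinarith
      · rw [h4]
        have h5 : (Cv S U L v).filter (fun p' => p'.2 = p.2 ∧ p'.1 ∈ Pn S U L p.1 p.2) = ∅ := by
          rw [Finset.filter_eq_empty_iff]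
          rintro ⟨x1, x2⟩ hx ⟨h6, h7⟩
          unfold Cv at hx
          rw [mem_filter] at hx
          dsimp only at hx h6 h7
          apply hv
          rw [mem_image]
          exact ⟨x1, h7, by rw [← h6]; exact hx.2.2.2⟩
        rw [h5]
        simp
    calc ∑ v, cs S U L (I2T S U L p) v ^ 2
        ≤ ∑ v, (if v ∈ (Pn S U L p.1 p.2).image (fun w => S.r w p.2) then (1 : ℝ) else 0) :=
          Finset.sum_le_sum fun v _ => h3 v
      _ = ((Pn S U L p.1 p.2).image (fun w => S.r w p.2)).card := by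
          rw [Finset.sum_ite_mem, Finset.univ_inter, Finset.sum_const, nsmul_eq_mul, mul_one]
      _ ≤ (Pn S U L p.1 p.2).card := by exact_mod_cast Finset.card_image_le
  linarith

/-- monotonicity of the sums of the squares -/
private theorem I2_sqm {U U' : Finset V} {L L' : V → Finset κ} {T : V → κ → ℝ}
    (hT : ∀ w b, 0 ≤ T w b) (hU : U' ⊆ U) (hL : ∀ u ∈ U', L' u ⊆ L u) :
    sq S U' L' T ≤ sq S U L T := by
  unfold sq
  have h1 : ∑ w ∈ U', rs L' T w ^ 2 ≤ ∑ w ∈ U, rs L T w ^ 2 := by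
    calc ∑ w ∈ U', rs L' T w ^ 2 ≤ ∑ w ∈ U', rs L T w ^ 2 := by
          refine Finset.sum_le_sum fun w hw => ?_
          have h2 : 0 ≤ rs L' T w := Finset.sum_nonneg fun b _ => hT w b
          have h3 : rs L' T w ≤ rs L T w :=
            Finset.sum_le_sum_of_subset_of_nonneg (hL w hw) fun b _ _ => hT w b
          exact pow_le_pow_left₀ h2 h3 2
      _ ≤ ∑ w ∈ U, rs L T w ^ 2 :=
          Finset.sum_le_sum_of_subset_of_nonneg hU fun w _ _ => sq_nonneg _
  have h2 : ∑ v, cs S U' L' T v ^ 2 ≤ ∑ v, cs S U L T v ^ 2 := by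
    refine Finset.sum_le_sum fun v _ => ?_
    have h3 : 0 ≤ cs S U' L' T v := Finset.sum_nonneg fun p _ => hT _ _
    have h4 : cs S U' L' T v ≤ cs S U L T v := by
      unfold cs
      refine Finset.sum_le_sum_of_subset_of_nonneg ?_ fun p _ _ => hT _ _
      intro p hp
      unfold Cv at hp ⊢
      rw [mem_filter] at hp ⊢
      exact ⟨hp.1, hU hp.2.1, hL _ hp.2.1 hp.2.2.1, hp.2.2.2⟩
    exact pow_le_pow_left₀ h3 h4 2
  linarith

private theorem I2_nm0 {U : Finset V} {L : V → Finset κ} {T : V → κ → ℝ}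
    (hT : ∀ w b, 0 ≤ T w b) : 0 ≤ nm U L T :=
  Finset.sum_nonneg fun w _ => Finset.sum_nonneg fun b _ => hT w b

/-! ### The end -/

/-- conflicts of options -/
private def I2R (S : CS V κ) (u : V) (a : κ) (w : V) (b : κ) : Prop :=
  u ≠ w ∧ ((S.adj u w ∧ a = b) ∨ S.r u a = S.r w b)

private theorem I2_end (hSamp : St_Samp) (hNear : Pool.TCS.St_Near) [Nonempty κ] {J : Type}
    [Fintype J] {n : ℕ}
    {U : Finset V} {L : V → Finset κ} {D l K L0 : ℕ} {g Lam nT sT mT : ℝ} {ctr : J → V}
    {T : J → V → κ → ℝ}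
    (hdeg : ∀ u, (univ.filter (fun v => S.adj u v)).card ≤ D) (hcol : Fintype.card κ ≤ D)
    (hl : 0 < l)
    (hcard : ∀ u ∈ U, (L u).card = l)
    (hC : ∀ v, ((Cv S U L v).card : ℝ) ≤ (1 - g) * l)
    (hP : ∀ u ∈ U, ∀ a ∈ L u, ((Pn S U L u a).card : ℝ) ≤ (1 - g) * l) (hg : 15 / 16 ≤ g)
    (hK : 24 ≤ K) (hLam : 1 ≤ Lam) (hLK : Lam ≤ K)
    (hexp : 4 * Real.exp (-Lam) * ((3 * ((D + 1 : ℕ) : ℝ) + 2) ^ 24 + 1) ≤ 1)
    (hTst : Tst S D ctr T (fun _ => mT)) (hnT : ∀ j, nm U L (T j) ≤ nT) :
    ∃ c : V → κ, (∀ u ∈ U, c u ∈ L u) ∧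
    (∀ u ∈ U, ∀ w ∈ U, u ≠ w → S.r u (c u) ≠ S.r w (c w)) ∧
    (∀ u ∈ U, ∀ w ∈ U, S.adj u w → c u ≠ c w) ∧
    ∀ j, ∑ u ∈ U, T j u (c u) ≤ Ht n K Lam l L0 nT sT mT := by
  have hl' : (0 : ℝ) < l := by exact_mod_cast hl
  have hLam0 : 0 ≤ Lam := by linarith
  have ht : ∀ j, 0 ≤ nm U L (T j) / l ∧ nm U L (T j) / l ≤
      nT / l + n * (64 * (K : ℝ) ^ 2 * Real.sqrt (sT * Lam)) / L0 := by
    intro j
    have h1 := I2_nm0 (U := U) (L := L) (fun w b => hTst.nn j w b)
    refine ⟨by positivity, ?_⟩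
    have h2 : nm U L (T j) / l ≤ nT / l := div_le_div_of_nonneg_right (hnT j) hl'.le
    have h3 : 0 ≤ n * (64 * (K : ℝ) ^ 2 * Real.sqrt (sT * Lam)) / L0 := by positivity
    linarith
  rcases U.eq_empty_or_nonempty with hU | ⟨u0, hu0⟩
  · subst hU
    refine ⟨fun _ => Classical.arbitrary κ, by simp, by simp, by simp, fun j => ?_⟩
    rw [Finset.sum_empty, I2_Ht]
    obtain ⟨h1, h2⟩ := ht j
    have h3 := I2Y_nonneg (K := K) (Lam := Lam) (mT := mT) (h1.trans h2)
    exact mul_nonneg (by positivity) h3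
  obtain ⟨hn1, hn2, hn3, hn4⟩ := hNear V κ S D hdeg hcol
  have hlD : l ≤ D := by
    rw [← hcard u0 hu0]
    exact (Finset.card_le_univ _).trans hcol
  have hn0 : ∀ u, near S 3 u u := fun u => hn3 0 3 u u (by norm_num) rfl
  have hadj : ∀ u w, S.adj u w → near S 3 u w := by
    intro u w h
    refine hn3 1 3 u w (by norm_num) ?_
    exact ⟨u, rfl, Or.inr (Or.inl h)⟩
  have hrr : ∀ u a w b, S.r u a = S.r w b → near S 3 u w := by
    intro u a w b h
    refine hn3 2 3 u w (by norm_num) ?_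
    exact ⟨S.r u a, ⟨u, rfl, Or.inr (Or.inr (Or.inl ⟨a, rfl⟩))⟩,
      Or.inr (Or.inr (Or.inr ⟨b, h.symm⟩))⟩
  obtain ⟨c, hc1, hc2, hc3⟩ := hSamp V κ J U L
    (I2R S) (near S 3) l (100 * K)
    ((3 * D + 1) ^ 3) (D ^ 5) Lam ctr T (fun _ => mT) hl hcard
    (by
      rintro u a w b ⟨h1, h2⟩
      refine ⟨h1.symm, ?_⟩
      rcases h2 with ⟨h2, h3⟩ | h2
      · exact Or.inl ⟨S.symm _ _ h2, h3.symm⟩
      · exact Or.inr h2.symm)
    (by
      rintro u a w b ⟨h1, h2⟩
      rcases h2 with ⟨h2, h3⟩ | h2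
      · exact hadj u w h2
      · exact hrr u a w b h2)
    hn0 (fun u w h => hn1 3 u w h) (fun u => hn4 3 u)
    (by
      intro u hu a ha
      have h3 : ((Pn S U L u a).image (fun w => (w, a))).card ≤ (Pn S U L u a).card :=
        Finset.card_image_le
      have h4 := hC (S.r u a)
      have h5 := hP u hu a ha
      have h6 : (1 - g) * l ≤ (l : ℝ) / 16 := by nlinarith
      have h7 : (8 : ℝ) * ((Pn S U L u a).card + (Cv S U L (S.r u a)).card) ≤ l := by linarith
      have h8 : 8 * ((Pn S U L u a).card + (Cv S U L (S.r u a)).card) ≤ l := by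
        exact_mod_cast h7
      refine (Nat.mul_le_mul_left 8 ((Finset.card_le_card
        (t := (Pn S U L u a).image (fun w => (w, a)) ∪ Cv S U L (S.r u a)) ?_).trans
        ((Finset.card_union_le _ _).trans (Nat.add_le_add_right h3 _)))).trans h8
      rintro ⟨w, b⟩ hp
      rw [mem_filter] at hp
      obtain ⟨-, h1, h2, h3, h0⟩ := hp
      dsimp only at h0 h1 h2 h3
      have h4 := h0.2
      rw [mem_union]
      rcases h4 with ⟨h4, h5⟩ | h4
      · left
        rw [mem_image]
        subst h5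
        refine ⟨w, ?_, rfl⟩
        unfold Pn
        rw [mem_filter]
        exact ⟨mem_univ _, h1, h4, h3⟩
      · right
        unfold Cv
        rw [mem_filter]
        exact ⟨mem_univ _, h1, h3, h4.symm⟩)
    (fun j w b => hTst.nn j w b) (fun j w b => hTst.le j w b) (fun j w b h => hTst.loc j w b h)
    (fun v => hTst.mul v) hLam
    (by
      push_cast
      linarith)
    (by
      refine le_trans ?_ hexp
      have hD : (0 : ℝ) ≤ D := Nat.cast_nonneg D
      have hlD' : (l : ℝ) ≤ D := by exact_mod_cast hlD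
      push_cast
      have e1 : (0 : ℝ) < 4 * Real.exp (-Lam) := by positivity
      apply mul_le_mul_of_nonneg_left _ e1.le
      apply add_le_add_left
      have h1 : (3 * (D : ℝ) + 1) ≤ 3 * (D + 1) + 2 := by linarith
      have h2 : (D : ℝ) ≤ 3 * (D + 1) + 2 := by linarith
      have h3 : (1 : ℝ) ≤ 3 * (D + 1) + 2 := by linarith
      obtain ⟨X, hX⟩ : ∃ X : ℝ, X = 3 * ((D : ℝ) + 1) + 2 := ⟨_, rfl⟩
      rw [← hX] at h1 h2 h3 ⊢
      have hX2 : 2 ≤ X := by rw [hX]; linarith
      have h4 : (l : ℝ) + D ^ 5 ≤ X ^ 6 := by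
        have h5 : (D : ℝ) ^ 5 ≤ X ^ 5 := pow_le_pow_left₀ hD h2 5
        have h6 : X ≤ X ^ 5 := by
          calc X = X ^ 1 := (pow_one X).symm
            _ ≤ X ^ 5 := pow_le_pow_right₀ h3 (by norm_num)
        have h7 : 0 ≤ X ^ 5 := by positivity
        have h8 : X ^ 6 = X * X ^ 5 := by ring
        nlinarith
      have h9 : ((3 * (D : ℝ) + 1) ^ 3) ^ 2 ≤ X ^ 6 := by
        rw [← pow_mul]
        exact pow_le_pow_left₀ (by positivity) h1 _
      calc ((3 * (D : ℝ) + 1) ^ 3) ^ 2 * (l + D ^ 5) ≤ X ^ 6 * X ^ 6 :=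
            mul_le_mul h9 h4 (by positivity) (by positivity)
        _ = X ^ 12 := by ring
        _ ≤ X ^ 24 := pow_le_pow_right₀ h3 (by norm_num))
  refine ⟨c, hc1, ?_, ?_, ?_⟩
  · intro u hu w hw huw h
    exact hc2 u hu w hw huw ⟨huw, Or.inr h⟩
  · intro u hu w hw huw h
    have hne : u ≠ w := by
      rintro rfl
      exact S.irr u huw
    exact hc2 u hu w hw hne ⟨hne, Or.inl ⟨huw, h⟩⟩
  · intro j
    obtain ⟨h1, h2⟩ := ht j
    refine (hc3 j).trans ?_
    rw [I2_Ht]
    refine le_trans (le_of_eq ?_) (I2_fin (n := n) hK hLam0 (hTst.pos j) h1 h2)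
    congr 1
    · ring
    · congr 2
      ring

/-- the upper bound for the tests after one step -/
private theorem I2_Mt {U : Finset V} {L : V → Finset κ} {D l m K : ℕ} {x : ℝ} {q : V → κ → ℝ}
    {Lam : ℝ} (h : Hyp S U L D l m K x q Lam) {T : V → κ → ℝ} (hT : ∀ w b, 0 ≤ T w b) :
    ∑ w ∈ U, ∑ b ∈ L w, T w b * Mt S U L l m K x q w b ≤
      nm U L T * ((1 - bet m K) * (1 - bet m K * x / l)) := by
  unfold nm
  rw [Finset.sum_mul]
  refine Finset.sum_le_sum fun w hw => ?_
  rw [Finset.sum_mul]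
  refine Finset.sum_le_sum fun b hb => ?_
  apply mul_le_mul_of_nonneg_left _ (hT w b)
  unfold Mt
  have h1 := h.fK_nonneg hw hb
  have h2 := h.betx
  have h3 := h.bet_le'
  have h4 : 0 ≤ (1 - bet m K) * (1 - bet m K * x / l) := mul_nonneg (by linarith) (by linarith)
  calc (1 - bet m K) * (1 - fK S U L l m K q w b) * (1 - bet m K * x / l)
      = (1 - fK S U L l m K q w b) * ((1 - bet m K) * (1 - bet m K * x / l)) := by ring
    _ ≤ 1 * ((1 - bet m K) * (1 - bet m K * x / l)) :=
        mul_le_mul_of_nonneg_right (by linarith) h4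
    _ = _ := one_mul _

/-- number of centres -/
private theorem I2_mul {J : Type} [Fintype J] {D : ℕ} {ctr : J → V} (hcol : Fintype.card κ ≤ D)
    (h : ∀ v, (univ.filter (fun j => ctr j = v)).card ≤ D ^ 5) (v : V) :
    (univ.filter (fun j : J ⊕ (V × κ) => Sum.elim ctr Prod.fst j = v)).card ≤ (D + 1) ^ 5 := by
  have h1 : (univ.filter (fun j : J ⊕ (V × κ) => Sum.elim ctr Prod.fst j = v)) ⊆
      (univ.filter (fun j => ctr j = v)).image Sum.inl ∪
        (univ : Finset κ).image (fun a => Sum.inr (v, a)) := by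
    intro j hj
    rw [mem_filter] at hj
    rw [mem_union, mem_image, mem_image]
    rcases j with j | ⟨u, a⟩
    · left
      exact ⟨j, mem_filter.2 ⟨mem_univ _, hj.2⟩, rfl⟩
    · right
      have h2 : u = v := hj.2
      exact ⟨a, mem_univ _, by rw [h2]⟩
  calc (univ.filter (fun j : J ⊕ (V × κ) => Sum.elim ctr Prod.fst j = v)).card
      ≤ ((univ.filter (fun j => ctr j = v)).image Sum.inl ∪
        (univ : Finset κ).image (fun a => (Sum.inr (v, a) : J ⊕ (V × κ)))).card :=
        Finset.card_le_card h1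
    _ ≤ ((univ.filter (fun j => ctr j = v)).image Sum.inl).card +
        ((univ : Finset κ).image (fun a => (Sum.inr (v, a) : J ⊕ (V × κ)))).card :=
        Finset.card_union_le _ _
    _ ≤ (univ.filter (fun j => ctr j = v)).card + (univ : Finset κ).card :=
        Nat.add_le_add Finset.card_image_le Finset.card_image_le
    _ ≤ D ^ 5 + D := Nat.add_le_add (h v) hcol
    _ ≤ (D + 1) ^ 5 := by
        have : (D + 1) ^ 5 = D ^ 5 + 5 * D ^ 4 + 10 * D ^ 3 + 10 * D ^ 2 + 5 * D + 1 := by ring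
        rw [this]
        omega

end iter

theorem thm_Iter2 (hNear : Pool.TCS.St_Near) (hStep : St_Step2) (hSamp : St_Samp) :
    St_Iter2 := by
  intro V κ J _ _ _ _ S n
  induction n with
  | zero =>
    intro U L D l K L0 g Lam nT sT mT ctr T hdeg hcol hcard hinj hC hP hg0 hg1 hK hLam hLK hexp
      hL0 hLL hErr hn hln hTst hnT hsT
    rw [pow_zero, mul_one] at hn hln
    have hl : 0 < l := by
      have h1 : L0 ≤ l := by exact_mod_cast hln
      omega
    exact I2_end hSamp hNear hdeg hcol hl hcard hC hP hn hK hLam hLK hexp hTst hnT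
  | succ n ih =>
    intro U L D l K L0 g Lam nT sT mT ctr T hdeg hcol hcard hinj hC hP hg0 hg1 hK hLam hLK hexp
      hL0 hLL hErr hn hln hTst hnT hsT
    obtain ⟨hb0, hb1⟩ := I2_bet hK
    have hL0' : (0 : ℝ) < L0 := by exact_mod_cast hL0
    have hc0 : 0 < 1 - 3 * bet (8 * K) K := by linarith
    have hc1 : 1 - 3 * bet (8 * K) K ≤ 1 := by linarith
    have hl' : (L0 : ℝ) ≤ l := by
      refine hln.trans ?_
      exact mul_le_of_le_one_right (Nat.cast_nonneg l) (pow_le_one₀ hc0.le hc1)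
    have hlp : (0 : ℝ) < l := lt_of_lt_of_le hL0' hl'
    have hl : 0 < l := by exact_mod_cast hlp
    have hl1 : (1 : ℝ) ≤ l := by exact_mod_cast hl
    have hLam0 : 0 ≤ Lam := by linarith
    have hK' : (24 : ℝ) ≤ K := by exact_mod_cast hK
    by_cases hg : 15 / 16 ≤ g
    · exact I2_end hSamp hNear hdeg hcol hl hcard hC hP hg hK hLam hLK hexp hTst hnT
    · push Not at hg
      obtain ⟨b, hb⟩ : ∃ b : ℝ, b = bet (8 * K) K := ⟨_, rfl⟩
      obtain ⟨E, hE⟩ : ∃ E : ℝ, E = Er K Lam l := ⟨_, rfl⟩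
      rw [← hb] at hb0 hb1 hc0 hc1 hErr hn hln
      have hE0 : 0 ≤ E := by rw [hE]; exact I2_Er0
      have hEle : E ≤ Er K Lam L0 := by rw [hE]; exact I2_Er (by linarith) hL0' hl'
      have hE8 : 8 * E ≤ g * b / 32 := by linarith
      have hE4 : 4 / (l : ℝ) ≤ E := by rw [hE]; exact I2_E4 hK hl1 hLam
      have hqx : b * ((1 - g) * l) / l = b * (1 - g) := by
        field_simp
      have hgl : (1 - g) * (l : ℝ) ≤ l := mul_le_of_le_one_left hlp.le (by linarith)
      have hbg : b * (1 - g) ≤ b := mul_le_of_le_one_right hb0.le (by linarith)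
      have hH : Hyp S U L (D + 1) l (8 * K) K ((1 - g) * l) (fun _ _ => b * (1 - g)) Lam :=
        { deg := fun u => (hdeg u).trans (Nat.le_succ D)
          col := hcol.trans (Nat.le_succ D)
          card := hcard
          inj2 := hinj
          hC := hC
          hP := fun u hu a ha => (hP u hu a ha).trans (by linarith)
          hq := by
            intro u hu a ha
            unfold pq
            have h1 := npair_nonneg S (Pn S U L u a)
            have h2 : 0 ≤ bet (8 * K) K ^ 2 / 2 * npair S (Pn S U L u a) / (l : ℝ) ^ 2 := by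
              positivity
            have h3 : bet (8 * K) K * (Pn S U L u a).card / l ≤ b * (1 - g) := by
              rw [← hqx, ← hb]
              exact div_le_div_of_nonneg_right (mul_le_mul_of_nonneg_left (hP u hu a ha) hb0.le)
                hlp.le
            linarith
          q0 := fun _ _ => mul_nonneg hb0.le (by linarith)
          q1 := fun _ _ => by linarith
          l0 := hl
          x0 := mul_nonneg (by linarith) hlp.le
          x1 := by linarith
          mK := le_rfl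
          K24 := hK
          L1 := hLam
          LK := hLK
          Ll := hLL.trans hl'
          hexp := hexp }
      have hT' : Tst S (D + 1) (Sum.elim ctr Prod.fst) (Sum.elim T (I2T S U L))
          (Sum.elim (fun _ : J => mT) (fun _ : V × κ => (1 : ℝ))) :=
        { nn := by
            rintro (j | p) w c
            · exact hTst.nn j w c
            · exact I2T_nn U L p w c
          le := by
            rintro (j | p) w c
            · exact hTst.le j w c
            · exact I2T_le U L p w c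
          pos := by
            rintro (j | p)
            · exact hTst.pos j
            · exact zero_le_one
          loc := by
            rintro (j | p) w c h
            · exact hTst.loc j w c h
            · have h1 : w ∈ Pn S U L p.1 p.2 := by
                by_contra h2
                apply h
                show I2T S U L p w c = 0
                unfold I2T
                exact if_neg fun h3 => h2 h3.2
              unfold Pn at h1
              rw [mem_filter] at h1
              exact ⟨w, ⟨w, ⟨p.1, rfl, Or.inr (Or.inl h1.2.2.1)⟩, Or.inl rfl⟩, Or.inl rfl⟩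
          mul := fun v => I2_mul hcol (fun v => hTst.mul v) v }
      obtain ⟨B, c, L', hB1, hB2, hB3, hB4, hB5, hB6, hB7, hB8, hB9, hB10⟩ :=
        hStep V κ (J ⊕ (V × κ)) S U L L (D + 1) l (8 * K) K _ _ Lam _ _ _ hH hT'
      -- the bound for the tests
      obtain ⟨F0, hF0⟩ : ∃ F0 : ℝ, F0 = (1 - b) * (1 - b * (1 - g)) := ⟨_, rfl⟩
      have hF00 : 0 ≤ F0 := by
        rw [hF0]
        exact mul_nonneg (by linarith) (by linarith)
      have hMt : ∀ T'' : V → κ → ℝ, (∀ w b, 0 ≤ T'' w b) →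
          ∑ w ∈ U, ∑ b' ∈ L w, T'' w b' *
            Mt S U L l (8 * K) K ((1 - g) * l) (fun _ _ => b * (1 - g)) w b' ≤ nm U L T'' * F0 := by
        intro T'' hT''
        have h1 := I2_Mt hH hT''
        rw [← hb, hqx, ← hF0] at h1
        exact h1
      have hLc : ∀ u ∈ U, (l : ℝ) * ((1 - b * (1 - g)) * (1 - b * (1 - g)) - E) ≤
          (L' u).card := by
        intro u hu
        have h1 := hB7 u hu
        rw [Finset.inter_self, Finset.inter_eq_left.2 (hB5 u hu), Finset.sum_const, hcard u hu,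
          nsmul_eq_mul, ← hb, hqx, ← hE] at h1
        linarith
      have hCv : ∀ v, (((Cv S U L v).filter (fun p => p.1 ∉ B ∧ p.2 ∈ L' p.1)).card : ℝ) ≤
          (1 - g) * l * F0 + E * l := by
        intro v
        have h1 := hB8 v
        rw [Finset.sum_const, nsmul_eq_mul, ← hb, ← hE, ← hF0] at h1
        have h2 := mul_le_mul_of_nonneg_right (hC v) hF00
        linarith
      have hPn : ∀ u ∈ U, ∀ a ∈ L u, ((Pn S (U \ B) L' u a).card : ℝ) ≤
          (1 - g) * l * F0 + E * l := by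
        intro u hu a ha
        have h1 := hB9 (Sum.inr (u, a))
        have h2 := hMt (I2T S U L (u, a)) (fun w b => I2T_nn U L (u, a) w b)
        have h3 : ((Pn S (U \ B) L' u a).card : ℝ) ≤
            ∑ w ∈ U \ B, ∑ b' ∈ L' w, I2T S U L (u, a) w b' := by
          have h4 : ((Pn S (U \ B) L' u a).card : ℝ) =
              ∑ w ∈ U \ B, if w ∈ Pn S (U \ B) L' u a then (1 : ℝ) else 0 := by
            rw [Finset.sum_ite_mem, Finset.sum_const, nsmul_eq_mul, mul_one]
            congr 2
            symm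
            apply Finset.inter_eq_right.2
            intro w hw
            unfold Pn at hw
            exact (mem_filter.1 hw).2.1
          rw [h4]
          refine Finset.sum_le_sum fun w hw => ?_
          split_ifs with h5
          · unfold Pn at h5
            rw [mem_filter] at h5
            obtain ⟨-, h6, h7, h8⟩ := h5
            have hwU : w ∈ U := (mem_sdiff.1 h6).1
            have h9 : w ∈ Pn S U L u a := by
              unfold Pn
              exact mem_filter.2 ⟨mem_univ _, hwU, h7, hB5 w hwU h8⟩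
            calc (1 : ℝ) = I2T S U L (u, a) w a := by
                  unfold I2T
                  exact (if_pos ⟨rfl, h9⟩).symm
              _ ≤ ∑ b' ∈ L' w, I2T S U L (u, a) w b' :=
                  Finset.single_le_sum (f := fun b' => I2T S U L (u, a) w b')
                    (fun b' _ => I2T_nn U L (u, a) w b') h8
          · exact Finset.sum_nonneg fun b' _ => I2T_nn U L (u, a) w b'
        have h4 : nm U L (I2T S U L (u, a)) ≤ (1 - g) * l := by
          rw [I2T_nm]
          exact hP u hu a ha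
        have h40 := I2_nm0 (U := U) (L := L) (fun w b => I2T_nn (S := S) U L (u, a) w b)
        have h5 : sq S U L (I2T S U L (u, a)) ≤ 2 * l := by
          refine (I2T_sq U L (u, a)).trans ?_
          have := hP u hu a ha
          show 2 * ((Pn S U L u a).card : ℝ) ≤ 2 * l
          linarith
        have h6 : Real.sqrt (sq S U L (I2T S U L (u, a)) * Lam) ≤
            3 / 2 * Real.sqrt (l * Lam) := by
          rw [show (3 / 2 : ℝ) = Real.sqrt ((3 / 2) ^ 2) from
            (Real.sqrt_sq (by norm_num)).symm, ← Real.sqrt_mul (by norm_num)]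
          apply Real.sqrt_le_sqrt
          have h7 : sq S U L (I2T S U L (u, a)) * Lam ≤ 2 * l * Lam :=
            mul_le_mul_of_nonneg_right h5 hLam0
          have h8 : 0 ≤ (l : ℝ) * Lam := by positivity
          linarith
        have h7 : 1 ≤ Real.sqrt (l * Lam) := by
          rw [Real.one_le_sqrt]
          exact one_le_mul_of_one_le_of_one_le hl1 hLam
        have h8 := I2_El (K := K) (Lam := Lam) hl1
        rw [← hE] at h8
        have h9 : 4 * nm U L (I2T S U L (u, a)) / l ≤ 4 := by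
          rw [div_le_iff₀ hlp]
          linarith
        have h10 : (576 : ℝ) ≤ (K : ℝ) ^ 2 :=
          le_trans (by norm_num) (pow_le_pow_left₀ (by norm_num) hK' 2)
        have h11 : 64 * (K : ℝ) ^ 2 * Real.sqrt (sq S U L (I2T S U L (u, a)) * Lam) ≤
            64 * (K : ℝ) ^ 2 * (3 / 2 * Real.sqrt (l * Lam)) :=
          mul_le_mul_of_nonneg_left h6 (by positivity)
        have h12 : nm U L (I2T S U L (u, a)) * F0 ≤ (1 - g) * l * F0 :=
          mul_le_mul_of_nonneg_right h4 hF00
        have h13 : 4 + 64 * (K : ℝ) ^ 2 * (3 / 2 * Real.sqrt (l * Lam)) ≤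
            128 * (K : ℝ) ^ 2 * Real.sqrt (l * Lam) := by
          have h14 : 576 * 1 ≤ (K : ℝ) ^ 2 * Real.sqrt (l * Lam) :=
            mul_le_mul h10 h7 zero_le_one (by positivity)
          linarith
        have h1' : ∑ w ∈ U \ B, ∑ b' ∈ L' w, I2T S U L (u, a) w b' ≤
            (∑ w ∈ U, ∑ b' ∈ L w, I2T S U L (u, a) w b' *
              Mt S U L l (8 * K) K ((1 - g) * l) (fun _ _ => b * (1 - g)) w b') +
            4 * nm U L (I2T S U L (u, a)) / l +
            64 * (K : ℝ) ^ 2 * Real.sqrt (sq S U L (I2T S U L (u, a)) * Lam) := h1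
        linarith
      obtain ⟨Bb, hBb⟩ : ∃ Bb : ℝ, Bb = (1 - b * (1 - g)) * (1 - b * (1 - g)) - E := ⟨_, rfl⟩
      obtain ⟨g', hg'⟩ : ∃ g' : ℝ, g' = min (g * (1 + b / 32)) (15 / 16) := ⟨_, rfl⟩
      obtain ⟨hN1, hN2, hN3⟩ := I2_num hb0 hb1 hg0 hg.le hE0 hE8
        (by rw [hg']; exact min_le_left _ _ : g' ≤ _) hBb
      have hBpos : 0 < Bb := by linarith
      obtain ⟨l', hl'def⟩ : ∃ l' : ℕ, l' = ⌈(l : ℝ) * Bb⌉₊ := ⟨_, rfl⟩
      have hl'ge : (l : ℝ) * Bb ≤ l' := by rw [hl'def]; exact Nat.le_ceil _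
      -- trimming
      have htrim : ∀ u, ∃ A : Finset κ, A ⊆ L' u ∧ (u ∈ U → A.card = l') := by
        intro u
        by_cases hu : u ∈ U
        · have h1 : l' ≤ (L' u).card := by
            rw [hl'def, Nat.ceil_le, hBb]
            exact hLc u hu
          obtain ⟨A, hA1, hA2⟩ := Finset.exists_subset_card_eq h1
          exact ⟨A, hA1, fun _ => hA2⟩
        · exact ⟨∅, empty_subset _, fun h => absurd h hu⟩
      choose L'' hL1 hL2 using htrim
      have hUU : U \ B ⊆ U := sdiff_subset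
      have hCsub : ∀ v, Cv S (U \ B) L'' v ⊆
          (Cv S U L v).filter (fun p => p.1 ∉ B ∧ p.2 ∈ L' p.1) := by
        intro v p hp
        unfold Cv at hp ⊢
        rw [mem_filter] at hp
        obtain ⟨-, h1, h2, h3⟩ := hp
        rw [mem_sdiff] at h1
        rw [mem_filter, mem_filter]
        exact ⟨⟨mem_univ _, h1.1, hB5 _ h1.1 (hL1 _ h2), h3⟩, h1.2, hL1 _ h2⟩
      have hPsub : ∀ u a, Pn S (U \ B) L'' u a ⊆ Pn S (U \ B) L' u a := by
        intro u a w hw
        unfold Pn at hw ⊢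
        rw [mem_filter] at hw ⊢
        exact ⟨hw.1, hw.2.1, hw.2.2.1, hL1 _ hw.2.2.2⟩
      have hg'1 : g' ≤ 15 / 16 := by rw [hg']; exact min_le_right _ _
      have hgg : g ≤ g' := by
        rw [hg']
        exact le_min (le_mul_of_one_le_right hg0.le (by linarith)) hg.le
      have hfin : (1 - g) * l * F0 + E * l ≤ (1 - g') * l' := by
        calc (1 - g) * l * F0 + E * l
            = l * ((1 - g) * (1 - b) * (1 - b * (1 - g)) + E) := by rw [hF0]; ring
          _ ≤ l * ((1 - g') * Bb) := mul_le_mul_of_nonneg_left hN2 hlp.le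
          _ = (1 - g') * (l * Bb) := by ring
          _ ≤ (1 - g') * l' := mul_le_mul_of_nonneg_left hl'ge (by linarith)
      obtain ⟨Δ, hΔ⟩ : ∃ Δ : ℝ, Δ = 64 * (K : ℝ) ^ 2 * Real.sqrt (sT * Lam) := ⟨_, rfl⟩
      have hΔ0 : 0 ≤ Δ := by rw [hΔ]; positivity
      -- the tests
      have htest : ∀ j, nm (U \ B) L'' (T j) ≤ nT * (F0 + 4 / l) + Δ := by
        intro j
        have h1 := hB9 (Sum.inl j)
        have h2 := hMt (T j) (fun w b => hTst.nn j w b)
        have h1' : ∑ w ∈ U \ B, ∑ b' ∈ L' w, T j w b' ≤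
            (∑ w ∈ U, ∑ b' ∈ L w, T j w b' *
              Mt S U L l (8 * K) K ((1 - g) * l) (fun _ _ => b * (1 - g)) w b') +
            4 * nm U L (T j) / l +
            64 * (K : ℝ) ^ 2 * Real.sqrt (sq S U L (T j) * Lam) := h1
        have h3 : nm (U \ B) L'' (T j) ≤ ∑ w ∈ U \ B, ∑ b' ∈ L' w, T j w b' := by
          unfold nm
          refine Finset.sum_le_sum fun w _ => ?_
          exact Finset.sum_le_sum_of_subset_of_nonneg (hL1 w) fun b' _ _ => hTst.nn j w b'
        have h4 : 64 * (K : ℝ) ^ 2 * Real.sqrt (sq S U L (T j) * Lam) ≤ Δ := by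
          rw [hΔ]
          apply mul_le_mul_of_nonneg_left _ (by positivity)
          exact Real.sqrt_le_sqrt (mul_le_mul_of_nonneg_right (hsT j) hLam0)
        have h5 : nm U L (T j) * (F0 + 4 / l) ≤ nT * (F0 + 4 / l) :=
          mul_le_mul_of_nonneg_right (hnT j) (by positivity)
        have h6 : nm U L (T j) * (F0 + 4 / l) = nm U L (T j) * F0 + 4 * nm U L (T j) / l := by
          ring
        linarith
      obtain ⟨c', hc1', hc2', hc3', hc4'⟩ := ih (U \ B) L'' D l' K L0 g' Lam
        (nT * (F0 + 4 / l) + Δ) sT mT ctr T hdeg hcol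
        (fun u hu => hL2 u (hUU hu))
        (by
          intro u hu a ha a' ha' h
          exact hinj u (hUU hu) a (hB5 u (hUU hu) (hL1 u ha)) a'
            (hB5 u (hUU hu) (hL1 u ha')) h)
        (by
          intro v
          have h1 : ((Cv S (U \ B) L'' v).card : ℝ) ≤
              ((Cv S U L v).filter (fun p => p.1 ∉ B ∧ p.2 ∈ L' p.1)).card := by
            exact_mod_cast card_le_card (hCsub v)
          exact h1.trans ((hCv v).trans hfin))
        (by
          intro u hu a ha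
          have h1 : ((Pn S (U \ B) L'' u a).card : ℝ) ≤ (Pn S (U \ B) L' u a).card := by
            exact_mod_cast card_le_card (hPsub u a)
          exact h1.trans ((hPn u (hUU hu) a (hB5 u (hUU hu) (hL1 u ha))).trans hfin))
        (lt_of_lt_of_le hg0 hgg) hg'1 hK hLam hLK hexp hL0 hLL
        (by
          refine hErr.trans ?_
          rw [← hb]
          have : g * b ≤ g' * b := mul_le_mul_of_nonneg_right hgg hb0.le
          linarith)
        (by
          rw [← hb]
          have hp1 : (1 : ℝ) ≤ 1 + b / 32 := by linarith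
          rcases le_total (g * (1 + b / 32)) (15 / 16) with h1 | h1
          · rw [hg', min_eq_left h1]
            calc (15 / 16 : ℝ) ≤ g * (1 + b / 32) ^ (n + 1) := hn
              _ = g * (1 + b / 32) * (1 + b / 32) ^ n := by rw [pow_succ]; ring
          · rw [hg', min_eq_right h1]
            have h2 : (1 : ℝ) ≤ (1 + b / 32) ^ n := one_le_pow₀ hp1
            linarith)
        (by
          rw [← hb]
          have h1 : (0 : ℝ) ≤ (1 - 3 * b) ^ n := pow_nonneg hc0.le n
          calc (L0 : ℝ) ≤ l * (1 - 3 * b) ^ (n + 1) := hln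
            _ = l * (1 - 3 * b) * (1 - 3 * b) ^ n := by rw [pow_succ]; ring
            _ ≤ l * Bb * (1 - 3 * b) ^ n :=
              mul_le_mul_of_nonneg_right (mul_le_mul_of_nonneg_left hN1 hlp.le) h1
            _ ≤ l' * (1 - 3 * b) ^ n := mul_le_mul_of_nonneg_right hl'ge h1)
        hTst htest
        (fun j => (I2_sqm (fun w b => hTst.nn j w b) hUU
          (fun u hu => (hL1 u).trans (hB5 u (hUU hu)))).trans (hsT j))
      have hmem' : ∀ u ∈ U, u ∉ B → u ∈ U \ B := fun u hu hB => mem_sdiff.2 ⟨hu, hB⟩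
      refine ⟨fun u => if u ∈ B then c u else c' u, ?_, ?_, ?_, ?_⟩
      · intro u hu
        dsimp only
        split_ifs with h
        · exact hB2 u h
        · exact hB5 u hu (hL1 u (hc1' u (hmem' u hu h)))
      · intro u hu w hw huw
        dsimp only
        by_cases h1 : u ∈ B <;> by_cases h2 : w ∈ B
        · rw [if_pos h1, if_pos h2]
          exact hB3 u h1 w h2 huw
        · rw [if_pos h1, if_neg h2]
          exact (hB6 w hw u h1 huw (c' w) (hL1 w (hc1' w (hmem' w hw h2)))).2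
        · rw [if_neg h1, if_pos h2]
          exact fun h => (hB6 u hu w h2 huw.symm (c' u) (hL1 u (hc1' u (hmem' u hu h1)))).2 h.symm
        · rw [if_neg h1, if_neg h2]
          exact hc2' u (hmem' u hu h1) w (hmem' w hw h2) huw
      · intro u hu w hw huw
        have hne : u ≠ w := by
          rintro rfl
          exact S.irr u huw
        dsimp only
        by_cases h1 : u ∈ B <;> by_cases h2 : w ∈ B
        · rw [if_pos h1, if_pos h2]
          exact hB4 u h1 w h2 huw
        · rw [if_pos h1, if_neg h2]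
          exact fun h => (hB6 w hw u h1 hne (c' w) (hL1 w (hc1' w (hmem' w hw h2)))).1
            ⟨S.symm _ _ huw, h⟩
        · rw [if_neg h1, if_pos h2]
          exact fun h => (hB6 u hu w h2 hne.symm (c' u) (hL1 u (hc1' u (hmem' u hu h1)))).1
            ⟨huw, h.symm⟩
        · rw [if_neg h1, if_neg h2]
          exact hc3' u (hmem' u hu h1) w (hmem' w hw h2) huw
      · intro j
        have hm0 : 0 ≤ mT := hTst.pos j
        have hnm0 := I2_nm0 (U := U) (L := L) (fun w b => hTst.nn j w b)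
        have hnT0 : 0 ≤ nT := hnm0.trans (hnT j)
        have e1 : ∑ u ∈ U, T j u (if u ∈ B then c u else c' u) =
            (∑ u ∈ U \ B, T j u (c' u)) + ∑ u ∈ B, T j u (c u) := by
          rw [← Finset.sum_sdiff hB1]
          congr 1
          · refine Finset.sum_congr rfl fun u hu => ?_
            rw [if_neg (mem_sdiff.1 hu).2]
          · refine Finset.sum_congr rfl fun u hu => ?_
            rw [if_pos hu]
        rw [e1]
        obtain ⟨t, ht⟩ : ∃ t : ℝ, t = nT / l + ((n + 1 : ℕ) : ℝ) * Δ / L0 := ⟨_, rfl⟩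
        have hH1 : Ht (n + 1) K Lam l L0 nT sT mT =
            (((n + 1 : ℕ) : ℝ) + 200 * K) * I2Y K Lam mT t := by
          rw [I2_Ht, ← hΔ, ← ht]
        have hl'pos : (0 : ℝ) < l' := lt_of_lt_of_le (mul_pos hlp hBpos) hl'ge
        have hΔL : 0 ≤ Δ / L0 := by positivity
        -- the remaining part
        have h1 : ∑ u ∈ U \ B, T j u (c' u) ≤ (n + 200 * K) * I2Y K Lam mT t := by
          refine (hc4' j).trans ?_
          rw [I2_Ht, ← hΔ]
          apply mul_le_mul_of_nonneg_left _ (by positivity)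
          apply I2Y_mono hLam0 hm0
          rw [ht]
          have h2 : nT * (F0 + 4 / l) / l' ≤ nT / l := by
            rw [div_le_div_iff₀ hl'pos hlp]
            have h3 : F0 + 4 / l ≤ Bb := by
              rw [hF0]
              linarith
            calc nT * (F0 + 4 / l) * l ≤ nT * Bb * l := by gcongr
              _ = nT * (l * Bb) := by ring
              _ ≤ nT * l' := mul_le_mul_of_nonneg_left hl'ge hnT0
          have h3 : Δ / l' ≤ Δ / L0 := by
            apply div_le_div_of_nonneg_left hΔ0 hL0'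
            have h4 : (1 - 3 * b) ^ (n + 1) ≤ 1 - 3 * b := by
              rw [pow_succ]
              exact mul_le_of_le_one_left hc0.le (pow_le_one₀ hc0.le hc1)
            calc (L0 : ℝ) ≤ l * (1 - 3 * b) ^ (n + 1) := hln
              _ ≤ l * (1 - 3 * b) := mul_le_mul_of_nonneg_left h4 hlp.le
              _ ≤ l * Bb := mul_le_mul_of_nonneg_left hN1 hlp.le
              _ ≤ l' := hl'ge
          have e2 : (nT * (F0 + 4 / l) + Δ) / l' + n * Δ / L0 =
              nT * (F0 + 4 / l) / l' + Δ / l' + n * Δ / L0 := by rw [add_div]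
          have e3 : nT / l + ((n + 1 : ℕ) : ℝ) * Δ / L0 = nT / l + Δ / L0 + n * Δ / L0 := by
            push_cast
            ring
          rw [e2, e3]
          linarith
        have h2 : ∑ u ∈ B, T j u (c u) ≤ I2Y K Lam mT t := by
          have h3 := hB10 (Sum.inl j)
          have h3' : ∑ u ∈ B, T j u (c u) ≤ bet (8 * K) K * nm U L (T j) / l +
              12 * K * Real.sqrt ((mT * nm U L (T j) / l + Lam * mT ^ 2) * Lam) := h3
          refine h3'.trans ?_
          have h4 : nm U L (T j) / l ≤ t := by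
            have h5 : nm U L (T j) / l ≤ nT / l := div_le_div_of_nonneg_right (hnT j) hlp.le
            have h6 : 0 ≤ ((n + 1 : ℕ) : ℝ) * Δ / L0 := by positivity
            rw [ht]
            linarith
          refine le_trans ?_ (I2Y_mono hLam0 hm0 h4)
          unfold I2Y
          rw [← hb]
          have h5 : b * nm U L (T j) / l ≤ nm U L (T j) / l := by
            rw [mul_div_assoc]
            exact mul_le_of_le_one_left (by positivity) (by linarith)
          have h6 : mT * nm U L (T j) / l = mT * (nm U L (T j) / l) := mul_div_assoc _ _ _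
          rw [h6]
          linarith
        rw [hH1]
        push_cast
        have e4 : ((n : ℝ) + 1 + 200 * K) * I2Y K Lam mT t =
            (n + 200 * K) * I2Y K Lam mT t + I2Y K Lam mT t := by ring
        rw [e4]
        linarith

end Pool.TCU
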